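import Pool.Agent.Helper32.DesD

namespace Pool.Agent.Results.MP_616659_co.HalfDefining

open Pool.Agent.Helper32.Des

lemma main_aux {F : Type*} [Field F] [Fintype F] [DecidableEq F] (p : ℕ) [hp : Fact p.Prime]
    [Algebra (ZMod p) F] {n : ℕ} (hcard : Fintype.card F + 1 = 4 * n) (hn : 2 ≤ n)
    (hnd : ∀ a : F, a ≠ 0 → ∃ b : F, Algebra.trace (ZMod p) F (a * b) ≠ 0) :
    ∃ S : Multiset (Finset F), IsDefiningSet 2 (2 * n - 1) (n - 1) (qrDesign F) S ∧
      S.card = 2 * n - 1 := by
  classical
  have h3 : Fintype.card F % 4 = 3 := by omega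
  have h7 : 7 ≤ Fintype.card F := by omega
  have hP : Par F n := ⟨hcard, hn⟩
  have hdes : IsDesign 2 (2 * n - 1) (n - 1) (qrDesign F) := by
    have h := qrDesign_isDesign h3 h7
    have e1 : 2 * n - 1 = (Fintype.card F - 1) / 2 := by omega
    have e2 : n - 1 = (Fintype.card F - 3) / 4 := by omega
    rw [e1, e2]
    exact h
  have hblockcard : ∀ c : F, (qrBlock c).card = 2 * n - 1 := fun c =>
    hdes.1 _ (Multiset.mem_map.mpr ⟨c, Finset.mem_univ c, rfl⟩)
  obtain ⟨D, hDcard, hDgood⟩ := lexgame_indep.{0} p (Module.finrank (ZMod p) F)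
    ((insert (0 : F) (nonzeroSquares F)).image (tau p))
  have hgood : Good (F := F) p D := hDgood
  have hDcard2 : D.card = 2 * n := by
    rw [hDcard, Finset.card_image_of_injective _ (tau_injective p hnd),
      Finset.card_insert_of_notMem zero_notMem, card_nonzeroSquares hcard]
    omega
  set Ac : Finset F := D.image (gam p) with hAc
  have hAccard : Ac.card = 2 * n := by
    rw [hAc, Finset.card_image_of_injective _ (gam_bijective p).1, hDcard2]
  refine ⟨(Acᶜ : Finset F).val.map qrBlock, ⟨hdes, ?_, ?_⟩, ?_⟩
  · exact Multiset.map_le_map (Finset.val_le_iff.mpr (Finset.subset_univ _))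
  · intro 𝓑' hB' hS
    have hnodup := nodup_blocks hP hB'
    -- every block of the second design is one of the blocks `Q + c`
    have hsub : ∀ X ∈ 𝓑', X ∈ qrDesign F := by
      intro X hX
      by_cases hXS : X ∈ (Acᶜ : Finset F).val.map qrBlock
      · exact Multiset.mem_of_le
          (Multiset.map_le_map (Finset.val_le_iff.mpr (Finset.subset_univ _))) hXS
      let mc : F → ℤ := fun c => ((X ∩ qrBlock c).card : ℤ) - (n - 1)
      have hXcard := hB'.1 X hX
      have hsupp : ∀ c, c ∉ D.image (gam p) → mc c = 0 := by
        intro c hc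
        have hcS : qrBlock c ∈ (Acᶜ : Finset F).val.map qrBlock :=
          Multiset.mem_map.mpr ⟨c, by
            rw [Finset.mem_val, Finset.mem_compl]; exact hc, rfl⟩
        have hcB : qrBlock c ∈ 𝓑' := Multiset.mem_of_le hS hcS
        have hne : qrBlock c ≠ X := fun h => hXS (h ▸ hcS)
        have := inter_blocks hP hB' X hX (qrBlock c) ((Multiset.mem_erase_of_ne hne).mpr hcB)
        show ((X ∩ qrBlock c).card : ℤ) - (n - 1) = 0
        rw [this]
        ring
      have hrel : ∀ x, ∑ c, mc c * idc (qrBlock c) x = n * idc X x := by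
        intro x
        have h := expansion hP hdes X hXcard x
        rw [sum_qrDesign] at h
        exact h
      have hvar : ∑ c, mc c ^ 2 = (n : ℤ) ^ 2 := by
        have h := variance hP hdes X hXcard
        rw [sum_qrDesign] at h
        exact h
      have hdiv := divis p hcard hn hnd D hgood X n dvd_rfl mc hsupp hrel
      choose mc' hmc' using hdiv
      have hn0 : (n : ℤ) ≠ 0 := by omega
      have hvar' : ∑ c, mc' c ^ 2 = 1 := by
        have h : ∑ c, mc c ^ 2 = n ^ 2 * ∑ c, mc' c ^ 2 := by
          rw [Finset.mul_sum]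
          refine Finset.sum_congr rfl (fun c _ => ?_)
          rw [hmc' c]
          ring
        rw [h] at hvar
        have h2 : (n : ℤ) ^ 2 ≠ 0 := pow_ne_zero 2 hn0
        exact mul_left_cancel₀ h2 (by rw [hvar, mul_one])
      obtain ⟨c0, hc0⟩ : ∃ c0, mc' c0 ≠ 0 := by
        by_contra h
        push Not at h
        rw [Finset.sum_eq_zero (fun c _ => by rw [h c]; ring)] at hvar'
        exact absurd hvar' (by norm_num)
      have hsplit := Finset.add_sum_erase Finset.univ (fun c => mc' c ^ 2) (Finset.mem_univ c0)
      rw [hvar'] at hsplit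
      have hge : 1 ≤ mc' c0 ^ 2 := by
        have : 0 < mc' c0 ^ 2 := by positivity
        omega
      have hnonneg : ∀ c ∈ Finset.univ.erase c0, 0 ≤ mc' c ^ 2 := fun c _ => sq_nonneg _
      have hrest0 : ∑ c ∈ Finset.univ.erase c0, mc' c ^ 2 = 0 := by
        have := Finset.sum_nonneg hnonneg
        omega
      have hc0sq : mc' c0 ^ 2 = 1 := by
        omega
      have hzero : ∀ c, c ≠ c0 → mc' c = 0 := by
        intro c hc
        have := (Finset.sum_eq_zero_iff_of_nonneg hnonneg).mp hrest0 c
          (Finset.mem_erase.mpr ⟨hc, Finset.mem_univ c⟩)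
        exact pow_eq_zero_iff (two_ne_zero) |>.mp this
      have hind : ∀ x, mc' c0 * idc (qrBlock c0) x = idc X x := by
        intro x
        have h := hrel x
        rw [Finset.sum_eq_single c0] at h
        · rw [hmc' c0, mul_assoc] at h
          exact mul_left_cancel₀ hn0 h
        · intro c _ hc
          rw [hmc' c, hzero c hc]
          ring
        · intro h; exact absurd (Finset.mem_univ _) h
      have hpos : mc' c0 = 1 := by
        have hne : X.Nonempty := by
          rw [← Finset.card_pos, hXcard]; omega
        obtain ⟨x, hx⟩ := hne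
        have h := hind x
        rw [show idc X x = 1 from if_pos hx] at h
        rcases sq_eq_one_iff.mp hc0sq with h1 | h1
        · exact h1
        · rw [h1] at h
          unfold idc at h
          split_ifs at h <;> omega
      have hXeq : X = qrBlock c0 := by
        ext x
        have h := hind x
        rw [hpos, one_mul] at h
        unfold idc at h
        constructor
        · intro hx
          rw [if_pos hx] at h
          by_contra hcon
          rw [if_neg hcon] at h
          exact absurd h (by norm_num)
        · intro hx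
          rw [if_pos hx] at h
          by_contra hcon
          rw [if_neg hcon] at h
          exact absurd h (by norm_num)
      rw [hXeq]
      exact Multiset.mem_map.mpr ⟨c0, Finset.mem_univ c0, rfl⟩
    have hle : 𝓑' ≤ qrDesign F := (Multiset.le_iff_subset hnodup).mpr hsub
    refine Multiset.eq_of_le_of_card_le hle ?_
    rw [card_blocks hP hB', card_blocks hP hdes]
  · rw [Multiset.card_map, Finset.card_val, Finset.card_compl, hAccard]
    omega

/-- For every finite field `F` with `q = |F| ≡ 3 (mod 4)`, `q ≥ 7`, the quadratic-residue Hadamard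
design `D_q` has a defining set of exactly `(q-1)/2` blocks; hence `μ_q ≤ 1/2`. -/
theorem result (F : Type*) [Field F] [Fintype F] [DecidableEq F]
    (h3 : Fintype.card F % 4 = 3) (h7 : 7 ≤ Fintype.card F) :
    ∃ S : Multiset (Finset F),
      IsDefiningSet 2 ((Fintype.card F - 1) / 2) ((Fintype.card F - 3) / 4) (qrDesign F) S ∧
        S.card = (Fintype.card F - 1) / 2 := by
  have hp : Fact (ringChar F).Prime := ⟨CharP.char_is_prime F _⟩
  let _ : Algebra (ZMod (ringChar F)) F := ZMod.algebra _ _
  obtain ⟨S, hS, hcard⟩ := main_aux (F := F) (ringChar F) (n := (Fintype.card F + 1) / 4)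
    (by omega) (by omega) (fun a ha => FiniteField.trace_to_zmod_nondegenerate F ha)
  have e1 : 2 * ((Fintype.card F + 1) / 4) - 1 = (Fintype.card F - 1) / 2 := by omega
  have e2 : (Fintype.card F + 1) / 4 - 1 = (Fintype.card F - 3) / 4 := by omega
  rw [e1, e2] at hS
  rw [e1] at hcard
  exact ⟨S, hS, hcard⟩

end Pool.Agent.Results.MP_616659_co.HalfDefining
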